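import Mathlib
import Pool.Agent.W151.KW.Up
import Pool.Agent.W151.KW.Low2
import Pool.Agent.W151.KW.Par2

/-!
# How many correlations determine Cramer's constant? (helper151)

Cramer's model of the primes is a random set of integers in which the events `n in S` have
probability `1 / log n` and are independent.  What is known about the primes (sieve theory, the
Hardy-Littlewood conjecture) are correlations of bounded order only.  A *model of level* `K` is a
random set in which `n` has probability `1 / log n` and in which only correlations of order at most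
`K n` are prescribed: any `K n` of the events with indices `≥ n` are independent.

We find the level from which on Cramer's constant `limsup (q' - q) / (log q)²` is determined, up to
an absolute constant factor: the level `log n`.  At level `16 log n` it is almost surely `1` in every
model; at level `2 κ log n`, with `κ ≤ 1`, it lies in every model between `κ / 8` and `κ e^(1/κ - 1)`,
and both bounds are sharp up to absolute constants; at level `o(log n)` it can be zero and it can be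
infinite.
-/

set_option autoImplicit false

namespace Pool.Agent.Results.MP_f9960f_nt.CorrelationOrder

open MeasureTheory Filter Topology
open Pool.Agent.H318R2.Cr Pool.Agent.W151.KW

theorem exact {Ω : Type} [MeasurableSpace Ω] {μ : Measure Ω} [IsProbabilityMeasure μ] {K : ℕ → ℕ}
    {A : ℕ → Set Ω} (hM : IsModel μ K A) {κ : ℝ} (hκ : 8 ≤ κ)
    (hK : ∀ᶠ n : ℕ in atTop, 2 * κ * Real.log n ≤ K n) :
    ∀ᵐ ω ∂μ, cramerLimsup {n | ω ∈ A n} = 1 := by
  filter_upwards [upper hM (by linarith) hK, lower hM (by linarith) hK] with ω h1 h2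
  rw [Mc_of_ge (by linarith)] at h1
  rw [min_eq_left (by linarith)] at h2
  exact le_antisymm (by exact_mod_cast h1.2) (by exact_mod_cast h2)

theorem result :
    -- every model of level at least `2 κ log n`
    (∀ (Ω : Type) [MeasurableSpace Ω] (μ : Measure Ω) [IsProbabilityMeasure μ] (K : ℕ → ℕ)
      (A : ℕ → Set Ω) (κ : ℝ), 0 < κ → (∀ᶠ n : ℕ in atTop, 2 * κ * Real.log n ≤ K n) →
      IsModel μ K A → ∀ᵐ ω ∂μ, {n | ω ∈ A n}.Infinite ∧
        ((min 1 (κ / 8) : ℝ) : EReal) ≤ cramerLimsup {n | ω ∈ A n} ∧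
        cramerLimsup {n | ω ∈ A n} ≤ ((min κ 1 * Real.exp (1 / min κ 1 - 1) : ℝ) : EReal) ∧
        (8 ≤ κ → cramerLimsup {n | ω ∈ A n} = 1)) ∧
    -- models of level `2 κ log n` with large gaps
    (∃ c : ℝ, 0 < c ∧ ∀ κ : ℝ, 0 < κ → κ ≤ 1 →
      ∃ (Ω : Type) (_ : MeasurableSpace Ω) (μ : Measure Ω) (A : ℕ → Set Ω), IsProbabilityMeasure μ ∧
        IsModel μ (fun n => ⌈2 * κ * Real.log n⌉₊) A ∧
        ∀ᵐ ω ∂μ, ((c * κ * Real.exp (1 / κ) : ℝ) : EReal) ≤ cramerLimsup {n | ω ∈ A n}) ∧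
    -- models of level `2 κ log n` with small gaps
    (∀ κ : ℝ, 0 < κ → κ ≤ 1 →
      ∃ (Ω : Type) (_ : MeasurableSpace Ω) (μ : Measure Ω) (A : ℕ → Set Ω), IsProbabilityMeasure μ ∧
        IsModel μ (fun n => ⌈2 * κ * Real.log n⌉₊) A ∧
        ∀ᵐ ω ∂μ, cramerLimsup {n | ω ∈ A n} ≤ ((700 * κ : ℝ) : EReal)) ∧
    -- models of level `o(log n)`
    (∀ K : ℕ → ℕ, Tendsto (fun n : ℕ => (K n : ℝ) / Real.log n) atTop (𝓝 0) →
      (∃ (Ω : Type) (_ : MeasurableSpace Ω) (μ : Measure Ω) (A : ℕ → Set Ω), IsProbabilityMeasure μ ∧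
        IsModel μ K A ∧ ∀ᵐ ω ∂μ, {n | ω ∈ A n}.Infinite ∧ cramerLimsup {n | ω ∈ A n} = ⊤) ∧
      (∃ (Ω : Type) (_ : MeasurableSpace Ω) (μ : Measure Ω) (A : ℕ → Set Ω), IsProbabilityMeasure μ ∧
        IsModel μ K A ∧ ∀ᵐ ω ∂μ, {n | ω ∈ A n}.Infinite ∧ cramerLimsup {n | ω ∈ A n} = 0)) := by
  refine ⟨?_, ?_, ?_, ?_⟩
  · intro Ω _ μ _ K A κ hκ hK hM
    by_cases h8 : 8 ≤ κ
    · filter_upwards [upper hM hκ hK, lower hM hκ hK, exact hM h8 hK] with ω h1 h2 h3
      exact ⟨h1.1, h2, h1.2, fun _ => h3⟩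
    · filter_upwards [upper hM hκ hK, lower hM hκ hK] with ω h1 h2
      exact ⟨h1.1, h2, h1.2, fun h => absurd h h8⟩
  · refine ⟨Real.exp (-41) / 8, by positivity, ?_⟩
    intro κ h0 h1
    by_cases h41 : κ ≤ 1 / 41
    · obtain ⟨μ, A, hμ, hM, hω⟩ := sup_small h0 h41
      refine ⟨_, _, μ, A, hμ, hM, ?_⟩
      filter_upwards [hω] with ω hω
      refine le_trans ?_ hω
      rw [EReal.coe_le_coe_iff]
      have e1 : Real.exp (1 / κ - 40) = Real.exp (1 / κ) * Real.exp (-40) := by
        rw [← Real.exp_add]; congr 1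
      have e2 : Real.exp (-41) ≤ Real.exp (-40) := Real.exp_le_exp.2 (by norm_num)
      rw [e1]
      have h3 : 0 ≤ κ * Real.exp (1 / κ) := by positivity
      have h4 : 0 < Real.exp (-40) := Real.exp_pos _
      nlinarith [mul_le_mul_of_nonneg_left e2 h3, mul_nonneg h3 h4.le]
    · obtain ⟨μ, hμ, hM⟩ := indep_model (fun n => ⌈2 * κ * Real.log n⌉₊)
      refine ⟨_, _, μ, _, hμ, hM, ?_⟩
      filter_upwards [lower hM h0 (Eventually.of_forall fun n => Nat.le_ceil _)] with ω hω
      refine le_trans ?_ hω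
      rw [EReal.coe_le_coe_iff, min_eq_right (by linarith)]
      have h3 : 1 / κ ≤ 41 := by
        rw [div_le_iff₀ h0]
        push Not at h41
        linarith
      have h4 : Real.exp (-41) * Real.exp (1 / κ) ≤ 1 := by
        rw [← Real.exp_add]
        exact Real.exp_le_one_iff.2 (by linarith)
      nlinarith
  · intro κ h0 h1
    obtain ⟨μ, A, hμ, hM, hω⟩ := inf_kappa h0 h1
    exact ⟨_, _, μ, A, hμ, hM, hω⟩
  · intro K hK
    constructor
    · obtain ⟨μ, A, hμ, hM, hω⟩ := sup_top hK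
      exact ⟨_, _, μ, A, hμ, hM, hω⟩
    · obtain ⟨μ, A, hμ, hM, hω⟩ := inf_zero hK
      exact ⟨_, _, μ, A, hμ, hM, hω⟩

end Pool.Agent.Results.MP_f9960f_nt.CorrelationOrder
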