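import Pool.Agent.W123.PP.Levels

set_option autoImplicit false

/-!
# Every set of primes and every bounded weight, around almost all primes

For every `θ > 0` and `ε > 0` there is `c > 0` such that for EVERY set `S` and EVERY weight `f` with
`|f| ≤ 1` all but `ε Y / log X` of the primes `p` of every interval `(X, X + Y]`, `X ^ θ ≤ Y ≤ X`,
have the following properties. If `p` is in `S`, then every interval of length `H ≤ Y` which starts
or ends with `p` contains at least `c H / log X` primes of `S`; every `H`-neighbourhood of `p` with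
`H ≥ log X` contains at most `H / (c log X)` primes; the sums of `f` over the primes of the intervals
in `[p - 2 ^ j, p + 2 ^ j]` are, up to `δ`, a constant times the length of the interval, for all but
`K (θ, ε, δ)` of the scales `2 ^ j ≥ log X`.
-/

namespace Pool.Agent.Results.MP_f9960f_nt.EveryWeight

open Finset Filter

open Classical in
/-- many primes of `S` in all intervals of length at most `Y` which start or end with `p` -/
def LowerWindows (c : ℝ) (S : Set ℕ) (X Y p : ℕ) : Prop :=
  ∀ H : ℕ, 1 ≤ H → H ≤ Y →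
    c * H / Real.log X ≤ (((Finset.Ico p (p + H)).filter (fun q => q.Prime ∧ q ∈ S)).card : ℝ) ∧
    c * H / Real.log X ≤ (((Finset.Ioc (p - H) p).filter (fun q => q.Prime ∧ q ∈ S)).card : ℝ)

/-- no accumulation of primes in any neighbourhood of `p` -/
def UpperWindows (c : ℝ) (X Y p : ℕ) : Prop :=
  ∀ H : ℕ, Real.log X ≤ H → H ≤ Y →
    (((Finset.Ioc (p - H) (p + H)).filter Nat.Prime).card : ℝ) ≤ H / (c * Real.log X)

/-- up to `δ` the weight `f` on the primes has a constant density on `[p - 2 ^ j, p + 2 ^ j]` -/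
def ConstantDensity (δ : ℝ) (f : ℕ → ℝ) (X p j : ℕ) : Prop :=
  ∃ lam : ℝ, ∀ u v : ℕ, p ≤ u + 2 ^ j → u ≤ v → v ≤ p + 2 ^ j →
    |∑ q ∈ (Finset.Ioc u v).filter Nat.Prime, f q - lam * ((v : ℝ) - u) / Real.log X| ≤
      δ * 2 ^ j / Real.log X

open Classical in
/-- the number of scales `log X ≤ 2 ^ j ≤ Y` without this property -/
noncomputable def badScales (δ : ℝ) (f : ℕ → ℝ) (X Y p : ℕ) : ℕ :=
  ((Finset.range (Nat.log 2 Y + 1)).filter (fun j => Real.log X ≤ (2 : ℝ) ^ j ∧
    ¬ ConstantDensity δ f X p j)).card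

open Pool.Agent.W123.PP Pool.Agent.W123.RP Pool.Agent.W123.GS

/-- the primes -/
def PrP (n : ℕ) : Prop := n.Prime

open Classical in
lemma co_PrP (u v : ℕ) : co PrP u v = co Nat.Prime u v := by
  unfold co
  congr 1
  ext q
  rw [mem_filter, mem_filter]
  exact Iff.rfl

open Classical in
/-- the bad elements of a set of primes -/
noncomputable def Bad (c Lam δ : ℝ) (K X Y : ℕ) (S : ℕ → Prop) : Finset ℕ :=
  (Finset.Ioc X (X + Y)).filter (fun p => S p ∧ ¬ (
        (∀ H : ℕ, 1 ≤ H → H ≤ Y →
          c / Real.log X * H ≤ cl S p (p + H) ∧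
          c / Real.log X * H ≤ cl S (p + 1 - H) (p + 1)) ∧
        (∀ H : ℕ, ⌊Real.log X⌋₊ ≤ H → H ≤ Y →
          (co Nat.Prime p (p + H) : ℝ) ≤ Lam / Real.log X * H ∧
          (co Nat.Prime (p - H) p : ℝ) ≤ Lam / Real.log X * H) ∧
        ((range (Nat.log 2 Y + 1)).filter (fun j => Real.log X ≤ (2 : ℝ) ^ j ∧
          ¬ Good S 0 Lam δ (Real.log X) p j)).card ≤ K))

open Classical in
/-- **Every set and every weight.** -/
theorem result : ∀ θ : ℝ, 0 < θ → θ ≤ 1 → ∀ ε : ℝ, 0 < ε → ∃ c : ℝ, 0 < c ∧
    ∀ δ : ℝ, 0 < δ → ∃ K : ℕ, ∀ᶠ X : ℕ in atTop, ∀ Y : ℕ, (X : ℝ) ^ θ ≤ Y → Y ≤ X →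
      ∀ (S : Set ℕ) (f : ℕ → ℝ), (∀ n, |f n| ≤ 1) →
      (((Finset.Ioc X (X + Y)).filter (fun p => p.Prime ∧
        ¬ ((p ∈ S → LowerWindows c S X Y p) ∧ UpperWindows c X Y p ∧
          badScales δ f X Y p ≤ K))).card : ℝ) ≤ ε * Y / Real.log X := by
  intro θ h0 h1 ε hε
  obtain ⟨c1, Lam, hc1, hLam, hwin⟩ := set_windows θ h0 h1 (ε / 4) (by positivity)
  obtain ⟨c, hcdef⟩ : ∃ c : ℝ, c = min c1 (1 / (2 * Lam)) := ⟨_, rfl⟩
  have hc : 0 < c := by rw [hcdef]; positivity
  have hcc1 : c ≤ c1 := by rw [hcdef]; exact min_le_left _ _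
  have hcL : c ≤ 1 / (2 * Lam) := by rw [hcdef]; exact min_le_right _ _
  refine ⟨c, hc, ?_⟩
  intro δ hδ
  obtain ⟨K1, hwin⟩ := hwin 1 one_pos
  -- the number of levels
  obtain ⟨m, hm1, hmδ⟩ : ∃ m : ℕ, 1 ≤ m ∧ 2 / (m : ℝ) * (2 * Lam) ≤ δ / 2 := by
    obtain ⟨m, hm⟩ := exists_nat_ge (8 * Lam / δ)
    refine ⟨m + 1, by omega, ?_⟩
    have hm0 : (0 : ℝ) < ((m + 1 : ℕ) : ℝ) := by exact_mod_cast (by omega : 0 < m + 1)
    have h2 : 8 * Lam / δ ≤ ((m + 1 : ℕ) : ℝ) := by push_cast; linarith
    rw [div_le_iff₀ hδ] at h2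
    rw [div_mul_eq_mul_div, div_le_iff₀ hm0]
    linarith
  obtain ⟨ε', hε'⟩ : ∃ ε' : ℝ, ε' = ε / (2 * (2 * m + 1)) := ⟨_, rfl⟩
  have hε'0 : 0 < ε' := by rw [hε']; positivity
  obtain ⟨c2, Lam2, hc2, hLam2, hwin2⟩ := set_windows θ h0 h1 ε' hε'0
  obtain ⟨K2, hwin2⟩ := hwin2 (δ / 10) (by positivity)
  refine ⟨(m + 1) * K2, ?_⟩
  have hXr : Tendsto (fun X : ℕ => (X : ℝ)) atTop atTop := tendsto_natCast_atTop_atTop
  have hlogX : Tendsto (fun X : ℕ => Real.log (X : ℝ)) atTop atTop :=
    Real.tendsto_log_atTop.comp hXr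
  filter_upwards [hwin, hwin2, hlogX.eventually_ge_atTop 2] with X hX hX2 hL2
  intro Y hY hYX S f hf
  have hL0 : 0 < Real.log X := by linarith
  obtain ⟨SP, hSP⟩ : ∃ SP : ℕ → Prop, SP = fun q => q.Prime ∧ q ∈ S := ⟨_, rfl⟩
  have hb1 : ((Bad c1 Lam 1 K1 X Y SP).card : ℝ) ≤ ε / 4 * Y / Real.log X :=
    hX Y hY hYX SP (fun n hn => by rw [hSP] at hn; exact hn.1)
  have hb2 : ((Bad c1 Lam 1 K1 X Y PrP).card : ℝ) ≤ ε / 4 * Y / Real.log X :=
    hX Y hY hYX PrP (fun n hn => hn)
  have hb3 : ((Bad c2 Lam2 (δ / 10) K2 X Y PrP).card : ℝ) ≤ ε' * Y / Real.log X :=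
    hX2 Y hY hYX PrP (fun n hn => hn)
  obtain ⟨CLev, hCLev⟩ : ∃ CLev : ℕ → ℕ → Prop, CLev = fun i q => q.Prime ∧ ¬ Lev f m i q := ⟨_, rfl⟩
  have hb4 : ∀ i ∈ range m, ((Bad c2 Lam2 (δ / 10) K2 X Y (Lev f m i)).card : ℝ) ≤
      ε' * Y / Real.log X := fun i _ => hX2 Y hY hYX (Lev f m i) (fun n hn => hn.1)
  have hb5 : ∀ i ∈ range m, ((Bad c2 Lam2 (δ / 10) K2 X Y (CLev i)).card : ℝ) ≤
      ε' * Y / Real.log X :=
    fun i _ => hX2 Y hY hYX (CLev i) (fun n hn => by rw [hCLev] at hn; exact hn.1)
  have hsub : (Finset.Ioc X (X + Y)).filter (fun p => p.Prime ∧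
        ¬ ((p ∈ S → LowerWindows c S X Y p) ∧ UpperWindows c X Y p ∧
          badScales δ f X Y p ≤ (m + 1) * K2)) ⊆
      (Bad c1 Lam 1 K1 X Y SP ∪ Bad c1 Lam 1 K1 X Y PrP) ∪
      (Bad c2 Lam2 (δ / 10) K2 X Y PrP ∪
        ((range m).biUnion (fun i => Bad c2 Lam2 (δ / 10) K2 X Y (Lev f m i)) ∪
        (range m).biUnion (fun i => Bad c2 Lam2 (δ / 10) K2 X Y (CLev i)))) := by
    intro p hp
    rw [mem_filter] at hp
    obtain ⟨hpI, hpp, hbad⟩ := hp
    by_contra hcon
    rw [mem_union, mem_union, mem_union, mem_union, mem_biUnion, mem_biUnion] at hcon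
    push Not at hcon
    obtain ⟨⟨n1, n2⟩, n3, n4, n5⟩ := hcon
    apply hbad
    -- the windows of the primes
    have g2 : (∀ H : ℕ, ⌊Real.log X⌋₊ ≤ H → H ≤ Y →
          (co Nat.Prime p (p + H) : ℝ) ≤ Lam / Real.log X * H ∧
          (co Nat.Prime (p - H) p : ℝ) ≤ Lam / Real.log X * H) := by
      unfold Bad at n2
      rw [mem_filter, not_and, not_and, not_not] at n2
      exact (n2 hpI hpp).2.1
    have gW : ∀ T : ℕ → Prop, T p → p ∉ Bad c2 Lam2 (δ / 10) K2 X Y T →
        ((range (Nat.log 2 Y + 1)).filter (fun j => Real.log X ≤ (2 : ℝ) ^ j ∧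
          ¬ Good T 0 Lam2 (δ / 10) (Real.log X) p j)).card ≤ K2 := by
      intro T hT hn
      unfold Bad at hn
      rw [mem_filter, not_and, not_and, not_not] at hn
      exact (hn hpI hT).2.2
    have hupH : ∀ H : ℕ, ⌊Real.log X⌋₊ ≤ H → H ≤ Y →
        (co Nat.Prime (p - H) (p + H) : ℝ) ≤ 2 * Lam * H / Real.log X := by
      intro H hH1 hH2
      have h3 : co Nat.Prime (p - H) p + co Nat.Prime p (p + H) = co Nat.Prime (p - H) (p + H) :=
        co_add (by omega) (by omega)
      have h4 : (co Nat.Prime (p - H) (p + H) : ℝ) = co Nat.Prime (p - H) p + co Nat.Prime p (p + H) := by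
        exact_mod_cast h3.symm
      obtain ⟨h5, h6⟩ := g2 H hH1 hH2
      have h7 : 2 * Lam * H / Real.log X = Lam / Real.log X * H + Lam / Real.log X * H := by ring
      rw [h4, h7]
      linarith
    refine ⟨?_, ?_, ?_⟩
    · intro hpS H hH1 hH2
      have hSPp : SP p := by rw [hSP]; exact ⟨hpp, hpS⟩
      unfold Bad at n1
      rw [mem_filter, not_and, not_and, not_not] at n1
      obtain ⟨h3, h4⟩ := (n1 hpI hSPp).1 H hH1 hH2
      have h5 : c * H / Real.log X ≤ c1 / Real.log X * H := by
        calc c * H / Real.log X ≤ c1 * H / Real.log X := by gcongr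
          _ = c1 / Real.log X * H := by ring
      refine ⟨h5.trans (h3.trans (le_of_eq ?_)), h5.trans (h4.trans (le_of_eq ?_))⟩
      · have : cl SP p (p + H) = ((Finset.Ico p (p + H)).filter (fun q => q.Prime ∧ q ∈ S)).card := by
          unfold cl
          congr 1
          ext q
          rw [mem_filter, mem_filter, hSP]
        exact_mod_cast this
      · have : cl SP (p + 1 - H) (p + 1) =
            ((Finset.Ioc (p - H) p).filter (fun q => q.Prime ∧ q ∈ S)).card := by
          unfold cl
          congr 1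
          ext q
          rw [mem_filter, mem_filter, mem_Ico, mem_Ioc, hSP]
          have hpX := (mem_Ioc.1 hpI).1
          constructor
          · rintro ⟨⟨h6, h7⟩, h8⟩
            exact ⟨⟨by omega, by omega⟩, h8⟩
          · rintro ⟨⟨h6, h7⟩, h8⟩
            exact ⟨⟨by omega, by omega⟩, h8⟩
        exact_mod_cast this
    · intro H hH1 hH2
      have h3 := hupH H (Nat.floor_le_of_le hH1) hH2
      have h4 : (((Finset.Ioc (p - H) (p + H)).filter Nat.Prime).card : ℝ) =
          co Nat.Prime (p - H) (p + H) := by unfold co; congr!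
      rw [h4]
      refine h3.trans ?_
      rw [div_le_div_iff₀ hL0 (by positivity)]
      rw [le_div_iff₀ (by positivity)] at hcL
      have h5 : 0 ≤ (H : ℝ) * Real.log X := by positivity
      calc 2 * Lam * H * (c * Real.log X) = (c * (2 * Lam)) * (H * Real.log X) := by ring
        _ ≤ 1 * (H * Real.log X) := by gcongr
        _ = H * Real.log X := one_mul _
    · -- bad scales
      obtain ⟨T, hT⟩ : ∃ T : ℕ → (ℕ → Prop), T = fun i => if Lev f m i p then Lev f m i else CLev i :=
        ⟨_, rfl⟩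
      have hTbad : ∀ i ∈ range m, ((range (Nat.log 2 Y + 1)).filter (fun j => Real.log X ≤ (2 : ℝ) ^ j ∧
          ¬ Good (T i) 0 Lam2 (δ / 10) (Real.log X) p j)).card ≤ K2 := by
        intro i hi
        by_cases h : Lev f m i p
        · have : T i = Lev f m i := by rw [hT]; simp only [h, if_true]
          rw [this]
          exact gW _ h (n4 i hi)
        · have : T i = CLev i := by rw [hT]; simp only [h, if_false]
          rw [this]
          exact gW _ (by rw [hCLev]; exact ⟨hpp, h⟩) (n5 i hi)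
      have hPbad := gW PrP hpp n3
      unfold badScales
      have hsub2 : (Finset.range (Nat.log 2 Y + 1)).filter (fun j => Real.log X ≤ (2 : ℝ) ^ j ∧
          ¬ ConstantDensity δ f X p j) ⊆
          ((range m).biUnion (fun i => (range (Nat.log 2 Y + 1)).filter (fun j => Real.log X ≤ (2 : ℝ) ^ j ∧
            ¬ Good (T i) 0 Lam2 (δ / 10) (Real.log X) p j))) ∪
          ((range (Nat.log 2 Y + 1)).filter (fun j => Real.log X ≤ (2 : ℝ) ^ j ∧
            ¬ Good PrP 0 Lam2 (δ / 10) (Real.log X) p j)) := by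
        intro j hj
        rw [mem_filter] at hj
        obtain ⟨hj1, hj2, hj3⟩ := hj
        by_contra hcon
        rw [mem_union, mem_biUnion] at hcon
        push Not at hcon
        obtain ⟨m1, m2⟩ := hcon
        have hjY : 2 ^ j ≤ Y := by
          rw [mem_range] at hj1
          rcases Nat.eq_zero_or_pos Y with h | h
          · subst h
            have h5 : (X : ℝ) ^ θ ≤ 0 := by exact_mod_cast hY
            have h6 : (0 : ℝ) < (X : ℝ) ^ θ := by
              apply Real.rpow_pos_of_pos
              by_contra h7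
              have h8 : (X : ℝ) = 0 := le_antisymm (not_lt.1 h7) (Nat.cast_nonneg X)
              rw [h8, Real.log_zero] at hL2
              linarith
            linarith
          · have h4 : 2 ^ j ≤ 2 ^ (Nat.log 2 Y) := Nat.pow_le_pow_right (by norm_num) (by omega)
            exact h4.trans (Nat.pow_log_le_self 2 (by omega))
        have hGP : Good PrP 0 Lam2 (δ / 10) (Real.log X) p j := by
          by_contra h
          exact m2 (mem_filter.2 ⟨hj1, hj2, h⟩)
        have hGT : ∀ i ∈ range m, Good (T i) 0 Lam2 (δ / 10) (Real.log X) p j := by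
          intro i hi
          by_contra h
          exact m1 i hi (mem_filter.2 ⟨hj1, hj2, h⟩)
        obtain ⟨θP, -, -, hθP⟩ := hGP
        simp only [co_PrP] at hθP
        apply hj3
        have hlin := linear_of_levels f hf m hm1 p j (Real.log X) (δ / 10 * 2 ^ j / Real.log X)
          (2 * Lam * ((2 ^ j : ℕ) : ℝ) / Real.log X)
          (hupH (2 ^ j) (by
            apply Nat.floor_le_of_le
            push_cast; exact hj2) hjY)
          ⟨θP, hθP⟩ (by
            intro i hi
            have hG := hGT i hi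
            by_cases h : Lev f m i p
            · have hTi : T i = Lev f m i := by rw [hT]; simp only [h, if_true]
              rw [hTi] at hG
              obtain ⟨θi, -, -, hθi⟩ := hG
              refine ⟨θi, fun u v hu huv hv => (hθi u v hu huv hv).trans ?_⟩
              have : 0 ≤ δ / 10 * 2 ^ j / Real.log X := by positivity
              linarith
            · have hTi : T i = CLev i := by rw [hT]; simp only [h, if_false]
              rw [hTi] at hG
              obtain ⟨θi, -, -, hθi⟩ := hG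
              refine ⟨θP - θi, fun u v hu huv hv => ?_⟩
              have h5 := hθi u v hu huv hv
              have h6 := hθP u v hu huv hv
              have h7 : (co (Lev f m i) u v : ℝ) + co (CLev i) u v = co Nat.Prime u v := by
                have hC : ∀ q, CLev i q ↔ (q.Prime ∧ ¬ Lev f m i q) := by
                  intro q; rw [hCLev]
                have : co (Lev f m i) u v + co (CLev i) u v = co Nat.Prime u v := by
                  unfold co
                  rw [← Finset.card_union_of_disjoint]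
                  · congr 1
                    ext q
                    rw [mem_union, mem_filter, mem_filter, mem_filter, hC]
                    constructor
                    · rintro (⟨k1, k2⟩ | ⟨k1, k2⟩)
                      · exact ⟨k1, k2.1⟩
                      · exact ⟨k1, k2.1⟩
                    · rintro ⟨k1, k2⟩
                      by_cases hk : Lev f m i q
                      · exact Or.inl ⟨k1, hk⟩
                      · exact Or.inr ⟨k1, k2, hk⟩
                  · rw [Finset.disjoint_left]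
                    intro q hq1 hq2
                    rw [mem_filter] at hq1 hq2
                    exact ((hC q).1 hq2.2).2 hq1.2
                exact_mod_cast this
              have h8 : (co (Lev f m i) u v : ℝ) - (θP - θi) * ((v : ℝ) - u) / Real.log X =
                  ((co Nat.Prime u v : ℝ) - θP * ((v : ℝ) - u) / Real.log X) -
                  ((co (CLev i) u v : ℝ) - θi * ((v : ℝ) - u) / Real.log X) := by
                rw [← h7]; ring
              rw [h8]
              refine (abs_sub _ _).trans ?_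
              linarith)
        obtain ⟨lam, hlam⟩ := hlin
        refine ⟨lam, fun u v hu huv hv => (hlam u v hu huv hv).trans ?_⟩
        push_cast
        have e1 : 5 * (δ / 10 * 2 ^ j / Real.log X) = δ / 2 * (2 ^ j / Real.log X) := by ring
        have e2 : 2 / (m : ℝ) * (2 * Lam * 2 ^ j / Real.log X) =
            2 / (m : ℝ) * (2 * Lam) * (2 ^ j / Real.log X) := by ring
        have e3 : δ * 2 ^ j / Real.log X = (δ / 2 + δ / 2) * (2 ^ j / Real.log X) := by ring
        rw [e1, e2, e3, add_mul]
        gcongr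
      refine (card_le_card hsub2).trans ((card_union_le _ _).trans ?_)
      have h3 := (Finset.card_biUnion_le).trans (Finset.sum_le_card_nsmul _ _ _ hTbad)
      rw [card_range, smul_eq_mul] at h3
      calc _ ≤ m * K2 + K2 := Nat.add_le_add h3 hPbad
        _ = (m + 1) * K2 := by ring
  have hcardN := (card_le_card hsub).trans ((card_union_le _ _).trans
    (Nat.add_le_add (card_union_le _ _) ((card_union_le _ _).trans
      (Nat.add_le_add_left (card_union_le _ _) _))))
  have hs1 : (((range m).biUnion (fun i => Bad c2 Lam2 (δ / 10) K2 X Y (Lev f m i))).card : ℝ) ≤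
      m * (ε' * Y / Real.log X) := by
    have h3 : (((range m).biUnion (fun i => Bad c2 Lam2 (δ / 10) K2 X Y (Lev f m i))).card : ℝ) ≤
        ∑ i ∈ range m, ((Bad c2 Lam2 (δ / 10) K2 X Y (Lev f m i)).card : ℝ) := by
      exact_mod_cast Finset.card_biUnion_le
    refine h3.trans ((Finset.sum_le_sum hb4).trans ?_)
    rw [Finset.sum_const, nsmul_eq_mul, card_range]
  have hs2 : (((range m).biUnion (fun i => Bad c2 Lam2 (δ / 10) K2 X Y (CLev i))).card : ℝ) ≤
      m * (ε' * Y / Real.log X) := by
    have h3 : (((range m).biUnion (fun i => Bad c2 Lam2 (δ / 10) K2 X Y (CLev i))).card : ℝ) ≤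
        ∑ i ∈ range m, ((Bad c2 Lam2 (δ / 10) K2 X Y (CLev i)).card : ℝ) := by
      exact_mod_cast Finset.card_biUnion_le
    refine h3.trans ((Finset.sum_le_sum hb5).trans ?_)
    rw [Finset.sum_const, nsmul_eq_mul, card_range]
  have hcardR : (((Finset.Ioc X (X + Y)).filter (fun p => p.Prime ∧
        ¬ ((p ∈ S → LowerWindows c S X Y p) ∧ UpperWindows c X Y p ∧
          badScales δ f X Y p ≤ (m + 1) * K2))).card : ℝ) ≤
      ((Bad c1 Lam 1 K1 X Y SP).card : ℝ) + (Bad c1 Lam 1 K1 X Y PrP).card +
      ((Bad c2 Lam2 (δ / 10) K2 X Y PrP).card +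
        (((range m).biUnion (fun i => Bad c2 Lam2 (δ / 10) K2 X Y (Lev f m i))).card +
        ((range m).biUnion (fun i => Bad c2 Lam2 (δ / 10) K2 X Y (CLev i))).card)) := by
    exact_mod_cast hcardN
  have hm0 : (0 : ℝ) < 2 * (2 * m + 1) := by positivity
  have htot : ε' * Y / Real.log X + (m * (ε' * Y / Real.log X) + m * (ε' * Y / Real.log X)) =
      ε / 2 * Y / Real.log X := by
    rw [hε']; field_simp; ring
  have htot2 : ε * Y / Real.log X = ε / 4 * Y / Real.log X + ε / 4 * Y / Real.log X +
      ε / 2 * Y / Real.log X := by ring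
  rw [htot2]
  linarith

end Pool.Agent.Results.MP_f9960f_nt.EveryWeight
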