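import Mathlib
import Pool.Agent.W150.SM.Up2
import Pool.Agent.W150.SM.Low3
import Pool.Agent.W150.SM.Gam
import Pool.Agent.W150.SM.Exist

/-!
# The Cramer constant of sieved random models of the primes (helper150)

A sieve level is a function `z : ℕ → ℕ`.  In the sieved model of level `z` an integer `n` of the
dyadic block `[2 ^ k, 2 ^ (k + 1))` is never kept when it has a prime factor `≤ z k`, and otherwise
it is kept, independently, with probability `min 1 (1 / (V (z k) * log n))`, where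
`V z = ∏_{p ≤ z} (1 - 1/p)`.  `z = 0` is Cramer's model; Granville's refinement sieves by the primes
up to about `log n`, i.e. takes `z k` about `k`.

We decide for which levels `z = n ^ {o(1)}` Cramer's constant `limsup (q' - q) / (log q)²` of the
model is still almost surely `1`: exactly for the levels `z = (log n) ^ {o(1)}`.
-/

set_option autoImplicit false

namespace Pool.Agent.Results.MP_f9960f_nt.SievedModels

open MeasureTheory ProbabilityTheory Filter Topology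
open Pool.Agent.H318R2.Cr Pool.Agent.W150.SM

theorem small_of_tendsto {z : ℕ → ℕ}
    (h : Tendsto (fun k : ℕ => Real.log (z k) / Real.log k) atTop (𝓝 0)) {ε : ℝ} (hε : 0 < ε) :
    ∀ᶠ k : ℕ in atTop, (z k : ℝ) ≤ (k : ℝ) ^ ε := by
  filter_upwards [h.eventually (ge_mem_nhds hε), eventually_ge_atTop 2] with k h1 h2
  have hk : (2 : ℝ) ≤ k := by exact_mod_cast h2
  have hl : 0 < Real.log k := Real.log_pos (by linarith)
  rcases Nat.eq_zero_or_pos (z k) with h0 | h0
  · rw [h0]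
    push_cast
    positivity
  · have hz0 : (0 : ℝ) < z k := by exact_mod_cast h0
    rw [div_le_iff₀ hl] at h1
    rw [← Real.log_le_log_iff hz0 (by positivity), Real.log_rpow (by linarith)]
    exact h1

theorem large_of_not {z : ℕ → ℕ}
    (h : ¬ Tendsto (fun k : ℕ => Real.log (z k) / Real.log k) atTop (𝓝 0)) :
    ∃ ε : ℝ, 0 < ε ∧ ∃ᶠ k : ℕ in atTop, (k : ℝ) ^ ε ≤ z k := by
  by_contra hcon
  push Not at hcon
  apply h
  rw [Metric.tendsto_nhds]
  intro ε hε
  have h1 := hcon (ε / 2) (by positivity)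
  filter_upwards [h1, eventually_ge_atTop 2] with k h2 h3
  have hk : (2 : ℝ) ≤ k := by exact_mod_cast h3
  have hl : 0 < Real.log k := Real.log_pos (by linarith)
  have hlz : 0 ≤ Real.log (z k) := Real.log_natCast_nonneg _
  rw [Real.dist_eq, sub_zero, abs_of_nonneg (by positivity), div_lt_iff₀ hl]
  rcases Nat.eq_zero_or_pos (z k) with h0 | h0
  · rw [h0]
    simp only [Nat.cast_zero, Real.log_zero]
    positivity
  · have hz0 : (0 : ℝ) < z k := by exact_mod_cast h0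
    have h4 : Real.log (z k) ≤ Real.log ((k : ℝ) ^ (ε / 2)) := Real.log_le_log hz0 h2.le
    rw [Real.log_rpow (by linarith)] at h4
    nlinarith

/-- **The Cramer constant of sieved random models.** -/
theorem result :
    -- the model exists at every level
    (∀ z : ℕ → ℕ, ∃ μ : Measure (ℕ → Bool), IsProbabilityMeasure μ ∧
      IsSievedModel μ z (fun n => {ω | ω n = true})) ∧
    -- for every level `z = n ^ {o(1)}` and every model of that level
    (∀ z : ℕ → ℕ, Tendsto (fun k : ℕ => Real.log (z k) / k) atTop (𝓝 0) →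
      ∀ (Ω : Type) [MeasurableSpace Ω] (μ : Measure Ω) [IsProbabilityMeasure μ] (A : ℕ → Set Ω),
      IsSievedModel μ z A →
        (∀ᵐ ω ∂μ, {n | ω ∈ A n}.Infinite) ∧
        (∀ᵐ ω ∂μ, ((1 : ℝ) : EReal) ≤ cramerLimsup {n | ω ∈ A n}) ∧
        ((∀ᵐ ω ∂μ, cramerLimsup {n | ω ∈ A n} = ((1 : ℝ) : EReal)) ↔
          Tendsto (fun k : ℕ => Real.log (z k) / Real.log k) atTop (𝓝 0)) ∧
        ((∀ ε : ℝ, 0 < ε → ∃ᶠ k : ℕ in atTop, (k : ℝ) ^ (1 - ε) ≤ z k) →
          ∀ᵐ ω ∂μ, ((2 * Real.exp (-Real.eulerMascheroniConstant) : ℝ) : EReal) ≤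
            cramerLimsup {n | ω ∈ A n})) ∧
    -- the constant is `> 1`, uniformly, for the levels `≥ (log n) ^ ε`
    (∀ ε : ℝ, 0 < ε → ∃ δ : ℝ, 0 < δ ∧ ∀ z : ℕ → ℕ,
      Tendsto (fun k : ℕ => Real.log (z k) / k) atTop (𝓝 0) →
      (∃ᶠ k : ℕ in atTop, (k : ℝ) ^ ε ≤ z k) →
      ∀ (Ω : Type) [MeasurableSpace Ω] (μ : Measure Ω) [IsProbabilityMeasure μ] (A : ℕ → Set Ω),
      IsSievedModel μ z A →
        ∀ᵐ ω ∂μ, ((1 + δ : ℝ) : EReal) ≤ cramerLimsup {n | ω ∈ A n}) ∧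
    -- and it is close to `1`, uniformly, for the levels `≤ (log n) ^ ε` when `ε` is small
    (∀ η : ℝ, 0 < η → ∃ ε : ℝ, 0 < ε ∧ ∀ z : ℕ → ℕ,
      (∀ᶠ k : ℕ in atTop, (z k : ℝ) ≤ (k : ℝ) ^ ε) →
      ∀ (Ω : Type) [MeasurableSpace Ω] (μ : Measure Ω) [IsProbabilityMeasure μ] (A : ℕ → Set Ω),
      IsSievedModel μ z A →
        ∀ᵐ ω ∂μ, ((1 : ℝ) : EReal) ≤ cramerLimsup {n | ω ∈ A n} ∧
          cramerLimsup {n | ω ∈ A n} ≤ ((1 + η : ℝ) : EReal)) := by
  refine ⟨exists_model, fun z hz Ω _ μ _ A hA => ⟨infinite_ae hz hA, ge_one hz hA, ⟨?_, ?_⟩,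
    fun hfr => ge_gamma hz hfr hA⟩, ge_delta, fun η hη => ?_⟩
  · intro h1
    by_contra hcon
    obtain ⟨ε, hε, hfr⟩ := large_of_not hcon
    obtain ⟨δ, hδ, hd⟩ := ge_delta ε hε
    have h2 := hd z hz hfr Ω μ A hA
    obtain ⟨ω, h3, h4⟩ := (h1.and h2).exists
    rw [h3, EReal.coe_le_coe_iff] at h4
    linarith
  · intro h1
    have h2 : ∀ᵐ ω ∂μ, ∀ n : ℕ, cramerLimsup {n | ω ∈ A n} ≤ ((1 + 1 / ((n : ℝ) + 1) : ℝ) : EReal) := by
      rw [ae_all_iff]
      intro n
      obtain ⟨ε, hε, hd⟩ := upper (1 / ((n : ℝ) + 1)) (by positivity)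
      exact hd z (small_of_tendsto h1 hε) Ω μ A hA
    filter_upwards [h2, ge_one hz hA] with ω h3 h4
    apply le_antisymm _ h4
    have h5 : Tendsto (fun n : ℕ => 1 + 1 / ((n : ℝ) + 1)) atTop (𝓝 (1 + 0)) :=
      tendsto_const_nhds.add tendsto_one_div_add_atTop_nhds_zero_nat
    rw [add_zero] at h5
    exact ge_of_tendsto' ((continuous_coe_real_ereal.tendsto 1).comp h5) h3
  · obtain ⟨ε, hε, hd⟩ := upper η hη
    refine ⟨ε, hε, fun z hz Ω _ μ _ A hA => ?_⟩
    filter_upwards [hd z hz Ω μ A hA, ge_one (log_of_small hz) hA] with ω h1 h2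
    exact ⟨h2, h1⟩

end Pool.Agent.Results.MP_f9960f_nt.SievedModels
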